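import Mathlib

set_option autoImplicit false

/-!
Structure of the set `W(C₁, C₂)` of MP_c3d375_an: it is star-shaped about every point of `C₂`, and it is
convex for every closed convex `C₁` whenever `C₂` is a closed disc or contains a line.
-/

namespace Pool.Agent.W560.NR

/-- The union of the numerical ranges of the operators `A = f(T)`, over all Hilbert space operators `T` whose
numerical range is contained in `C₁` and all `f` holomorphic near `C₁` with `f(C₁) ⊆ C₂`. -/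
def W (C₁ C₂ : Set ℂ) : Set ℂ :=
  {w : ℂ | ∃ (H : Type) (_ : NormedAddCommGroup H)
          (_ : InnerProductSpace ℂ H) (_ : CompleteSpace H)
          (T : H →L[ℂ] H) (f : ℂ → ℂ) (A : H →L[ℂ] H) (V : Set ℂ),
        (∀ x : H, ‖x‖ = 1 → inner ℂ x (T x) ∈ C₁) ∧
        IsOpen V ∧ C₁ ⊆ V ∧ DifferentiableOn ℂ f V ∧ f '' C₁ ⊆ C₂ ∧
        (∃ (p : ℕ → Polynomial ℂ) (U : Set ℂ), IsOpen U ∧ spectrum ℂ T ⊆ U ∧
          TendstoUniformlyOn (fun n z => (p n).eval z) f Filter.atTop U ∧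
          Filter.Tendsto (fun n => Polynomial.aeval T (p n)) Filter.atTop (nhds A)) ∧
        ∃ x : H, ‖x‖ = 1 ∧ inner ℂ x (A x) = w}

open Polynomial in
theorem W_affine {C₁ C₂ C₃ : Set ℂ} (α β : ℂ) (h : ∀ z ∈ C₂, α * z + β ∈ C₃) {w : ℂ}
    (hw : w ∈ W C₁ C₂) : α * w + β ∈ W C₁ C₃ := by
  obtain ⟨H, i1, i2, i3, T, f, A, V, hT, hV, hCV, hf, hfC, ⟨p, U, hU, hTU, hpf, hpA⟩, x, hx, hxw⟩ := hw
  refine ⟨H, i1, i2, i3, T, fun z => α * f z + β, α • A + β • (1 : H →L[ℂ] H), V, hT, hV, hCV, ?_, ?_,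
    ⟨fun n => C α * p n + C β, U, hU, hTU, ?_, ?_⟩, x, hx, ?_⟩
  · exact (hf.const_mul α).add_const β
  · rintro _ ⟨z, hz, rfl⟩
    exact h _ (hfC ⟨z, hz, rfl⟩)
  · rw [Metric.tendstoUniformlyOn_iff] at hpf ⊢
    intro ε hε
    have hε' : 0 < ε / (‖α‖ + 1) := by positivity
    filter_upwards [hpf _ hε'] with n hn z hz
    have h1 := hn z hz
    simp only [eval_add, eval_mul, eval_C]
    rw [dist_eq_norm] at h1 ⊢
    have h2 : α * f z + β - (α * eval z (p n) + β) = α * (f z - eval z (p n)) := by ring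
    rw [h2, norm_mul]
    have h3 : ‖α‖ * ‖f z - eval z (p n)‖ ≤ ‖α‖ * (ε / (‖α‖ + 1)) :=
      mul_le_mul_of_nonneg_left h1.le (norm_nonneg _)
    have h4 : ‖α‖ * (ε / (‖α‖ + 1)) < ε := by
      rw [← mul_div_assoc, div_lt_iff₀ (by positivity)]
      nlinarith [norm_nonneg α]
    linarith
  · have h1 : (fun n => aeval T (C α * p n + C β))
        = fun n => α • aeval T (p n) + β • (1 : H →L[ℂ] H) := by
      funext n
      rw [map_add, map_mul, aeval_C, aeval_C, Algebra.algebraMap_eq_smul_one,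
        Algebra.algebraMap_eq_smul_one, smul_mul_assoc, one_mul]
    rw [h1]
    exact (hpA.const_smul α).add_const _
  · have h1 : (α • A + β • (1 : H →L[ℂ] H)) x = α • A x + β • x := by simp
    rw [h1, inner_add_right, inner_smul_right, inner_smul_right, hxw, inner_self_eq_norm_sq_to_K, hx]
    simp

theorem W_nonempty_right {C₁ C₂ : Set ℂ} {w : ℂ} (hw : w ∈ W C₁ C₂) : C₂.Nonempty := by
  obtain ⟨H, i1, i2, i3, T, f, A, V, hT, hV, hCV, hf, hfC, -, x, hx, -⟩ := hw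
  exact ⟨_, hfC ⟨_, hT x hx, rfl⟩⟩

/-- star-shapedness about every point of `C₂` -/
theorem W_star {C₁ C₂ : Set ℂ} (hC : Convex ℝ C₂) {c : ℂ} (hc : c ∈ C₂) {w : ℂ} (hw : w ∈ W C₁ C₂)
    {t : ℝ} (h0 : 0 ≤ t) (h1 : t ≤ 1) : c + (t : ℂ) * (w - c) ∈ W C₁ C₂ := by
  have := W_affine (C₁ := C₁) (C₂ := C₂) (C₃ := C₂) (t : ℂ) ((1 - t : ℝ) * c : ℂ) (fun z hz => by
    have h2 := hC hz hc h0 (by linarith : (0 : ℝ) ≤ 1 - t) (by ring)
    simpa [Complex.real_smul] using h2) hw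
  convert this using 1
  push_cast
  ring

/-- the disc case -/
theorem W_convex_disc (C₁ : Set ℂ) (c : ℂ) (r : ℝ) : Convex ℝ (W C₁ (Metric.closedBall c r)) := by
  have key : ∀ w ∈ W C₁ (Metric.closedBall c r), ∀ v : ℂ, ‖v - c‖ ≤ ‖w - c‖ →
      v ∈ W C₁ (Metric.closedBall c r) := by
    intro w hw v hv
    by_cases hwc : w - c = 0
    · rw [hwc, norm_zero] at hv
      have : v - c = 0 := norm_eq_zero.mp (le_antisymm hv (norm_nonneg _))
      have h2 : v = w := by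
        rw [sub_eq_zero] at this hwc
        rw [this, hwc]
      rw [h2]; exact hw
    · set γ : ℂ := (v - c) / (w - c) with hγ
      have hγ1 : ‖γ‖ ≤ 1 := by
        rw [hγ, norm_div]
        exact div_le_one_of_le₀ hv (norm_nonneg _)
      have := W_affine (C₁ := C₁) (C₂ := Metric.closedBall c r) (C₃ := Metric.closedBall c r) γ
        ((1 - γ) * c) (fun z hz => by
          rw [Metric.mem_closedBall, dist_eq_norm] at hz ⊢
          have h2 : γ * z + (1 - γ) * c - c = γ * (z - c) := by ring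
          rw [h2, norm_mul]
          calc ‖γ‖ * ‖z - c‖ ≤ 1 * ‖z - c‖ := mul_le_mul_of_nonneg_right hγ1 (norm_nonneg _)
            _ ≤ r := by rw [one_mul]; exact hz) hw
      convert this using 1
      have h3 : γ * (w - c) = v - c := by rw [hγ]; field_simp
      linear_combination -h3
  intro w₁ h₁ w₂ h₂ a b ha hb hab
  have h3 : a • w₁ + b • w₂ - c = (a : ℂ) * (w₁ - c) + (b : ℂ) * (w₂ - c) := by
    have : (a : ℂ) + b = 1 := by exact_mod_cast hab
    simp only [Complex.real_smul]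
    linear_combination c * this
  have h4 : ‖a • w₁ + b • w₂ - c‖ ≤ a * ‖w₁ - c‖ + b * ‖w₂ - c‖ := by
    rw [h3]
    refine (norm_add_le _ _).trans ?_
    rw [norm_mul, norm_mul, Complex.norm_real, Complex.norm_real, Real.norm_of_nonneg ha,
      Real.norm_of_nonneg hb]
  rcases le_total ‖w₁ - c‖ ‖w₂ - c‖ with h | h
  · refine key w₂ h₂ _ (h4.trans ?_)
    have h5 := mul_le_mul_of_nonneg_left h ha
    have h6 : a * ‖w₂ - c‖ + b * ‖w₂ - c‖ = ‖w₂ - c‖ := by rw [← add_mul, hab, one_mul]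
    linarith
  · refine key w₁ h₁ _ (h4.trans ?_)
    have h5 := mul_le_mul_of_nonneg_left h hb
    have h6 : a * ‖w₁ - c‖ + b * ‖w₁ - c‖ = ‖w₁ - c‖ := by rw [← add_mul, hab, one_mul]
    linarith

/-- the case in which `C₂` contains a line, i.e. is invariant under the translations by `t v` -/
theorem W_convex_line (C₁ C₂ : Set ℂ) (hC : Convex ℝ C₂) (v : ℂ) (hv : v ≠ 0)
    (hline : ∀ z ∈ C₂, ∀ t : ℝ, z + (t : ℂ) * v ∈ C₂) : Convex ℝ (W C₁ C₂) := by
  have htr : ∀ w ∈ W C₁ C₂, ∀ t : ℝ, w + (t : ℂ) * v ∈ W C₁ C₂ := by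
    intro w hw t
    have := W_affine (C₁ := C₁) (C₂ := C₂) (C₃ := C₂) 1 ((t : ℂ) * v)
      (fun z hz => by simpa using hline z hz t) hw
    simpa using this
  intro w₁ h₁ w₂ h₂ a b ha hb hab
  obtain ⟨c, hc⟩ := W_nonempty_right h₁
  -- key: if the imaginary coordinate of `u` is `τ` times that of `w ∈ W`, `0 ≤ τ ≤ 1`, then `u ∈ W`
  have key : ∀ w ∈ W C₁ C₂, ∀ u : ℂ, ∀ τ : ℝ, 0 ≤ τ → τ ≤ 1 →
      ((u - c) / v).im = τ * ((w - c) / v).im → u ∈ W C₁ C₂ := by
    intro w hw u τ h0 h1 him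
    have h2 := W_star hC hc hw h0 h1
    have h3 := htr _ h2 (((u - c) / v).re - τ * ((w - c) / v).re)
    convert h3 using 1
    have e1 : u - c = (u - c) / v * v := by field_simp
    have e2 : w - c = (w - c) / v * v := by field_simp
    have e3 : (u - c) / v = ((((u - c) / v).re : ℝ) : ℂ) + ((((u - c) / v).im : ℝ) : ℂ) * Complex.I :=
      (Complex.re_add_im _).symm
    have e4 : (w - c) / v = ((((w - c) / v).re : ℝ) : ℂ) + ((((w - c) / v).im : ℝ) : ℂ) * Complex.I :=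
      (Complex.re_add_im _).symm
    have e5 : ((((u - c) / v).im : ℝ) : ℂ) = (τ : ℂ) * ((((w - c) / v).im : ℝ) : ℂ) := by
      rw [him]; push_cast; ring
    push_cast
    linear_combination e1 - (τ : ℂ) * e2 + v * e3 - (τ : ℂ) * v * e4 + v * Complex.I * e5
  set y₁ := ((w₁ - c) / v).im with hy₁
  set y₂ := ((w₂ - c) / v).im with hy₂
  have hy : ((a • w₁ + b • w₂ - c) / v).im = a * y₁ + b * y₂ := by
    have h3 : (a • w₁ + b • w₂ - c) / v = (a : ℂ) * ((w₁ - c) / v) + (b : ℂ) * ((w₂ - c) / v) := by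
      have : (a : ℂ) + b = 1 := by exact_mod_cast hab
      have h4 : a • w₁ + b • w₂ - c = (a : ℂ) * (w₁ - c) + (b : ℂ) * (w₂ - c) := by
        simp only [Complex.real_smul]
        linear_combination c * this
      rw [h4]; ring
    rw [h3, Complex.add_im, Complex.im_ofReal_mul, Complex.im_ofReal_mul]
  -- the combination lies between `0` and one of `y₁`, `y₂`
  have main : (∃ τ : ℝ, 0 ≤ τ ∧ τ ≤ 1 ∧ a * y₁ + b * y₂ = τ * y₁) ∨
      (∃ τ : ℝ, 0 ≤ τ ∧ τ ≤ 1 ∧ a * y₁ + b * y₂ = τ * y₂) := by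
    have gen : ∀ y Y : ℝ, (0 ≤ y ∧ y ≤ Y) ∨ (Y ≤ y ∧ y ≤ 0) → ∃ τ : ℝ, 0 ≤ τ ∧ τ ≤ 1 ∧ y = τ * Y := by
      intro y Y h
      by_cases hY : Y = 0
      · refine ⟨0, le_rfl, zero_le_one, ?_⟩
        rcases h with h | h <;> subst hY <;> linarith [h.1, h.2]
      · refine ⟨y / Y, ?_, ?_, by field_simp⟩
        · rcases h with h | h
          · exact div_nonneg h.1 (h.1.trans h.2)
          · exact div_nonneg_of_nonpos h.2 (h.1.trans h.2)
        · rcases h with h | h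
          · exact div_le_one_of_le₀ h.2 (h.1.trans h.2)
          · exact div_le_one_of_ge h.1 (h.1.trans h.2)
    have hle1 : y₁ ≤ y₂ → y₁ ≤ a * y₁ + b * y₂ ∧ a * y₁ + b * y₂ ≤ y₂ := by
      intro h
      have hb' : b = 1 - a := by linarith
      subst hb'
      constructor <;> nlinarith
    have hle2 : y₂ ≤ y₁ → y₂ ≤ a * y₁ + b * y₂ ∧ a * y₁ + b * y₂ ≤ y₁ := by
      intro h
      have hb' : b = 1 - a := by linarith
      subst hb'
      constructor <;> nlinarith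
    rcases le_total y₁ y₂ with h | h
    · obtain ⟨h5, h6⟩ := hle1 h
      rcases le_total 0 (a * y₁ + b * y₂) with h7 | h7
      · exact Or.inr (gen _ _ (Or.inl ⟨h7, h6⟩))
      · exact Or.inl (gen _ _ (Or.inr ⟨h5, h7⟩))
    · obtain ⟨h5, h6⟩ := hle2 h
      rcases le_total 0 (a * y₁ + b * y₂) with h7 | h7
      · exact Or.inl (gen _ _ (Or.inl ⟨h7, h6⟩))
      · exact Or.inr (gen _ _ (Or.inr ⟨h5, h7⟩))
  rcases main with ⟨τ, h0, h1, h2⟩ | ⟨τ, h0, h1, h2⟩
  · exact key w₁ h₁ _ τ h0 h1 (by rw [hy, h2])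
  · exact key w₂ h₂ _ τ h0 h1 (by rw [hy, h2])

end Pool.Agent.W560.NR
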